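import Pool.Agent.V8H57.RX.Sim
import Pool.Agent.V8H57.RX.Task

/-!
# The game against a counterexample computation, for hidden chains

The instance `x` has the feasible solutions `0` and the members of a set `S` of numbers up to `x`. The
adversary answers with the next larger member. Whenever the machine presents the largest member, a
new member, about which it has not asked, is put into `S`.
-/

set_option autoImplicit false

namespace Pool.Agent.V8H83.CXD

open Pool.Agent.NPC Pool.Agent.H620R2.Gauge Pool.Agent.V8H57.CX Pool.Agent.V8H57.RX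

/-- the feasible solutions: `0` and the members of `S` -/
def Ch (S : Set ℕ) (x y : ℕ) : Prop := y ≤ x ∧ (y = 0 ∨ y ∈ S)

theorem ch_zero (S : Set ℕ) (x : ℕ) : Ch S x 0 := ⟨Nat.zero_le _, Or.inl rfl⟩

open Classical in
/-- the answer of the adversary: the next larger feasible solution -/
noncomputable def av (S : Set ℕ) (x y : ℕ) : Option ℕ :=
  if ¬ Ch S x y then some 0
  else if h : ∃ z, Ch S x z ∧ y < z then some (Nat.find h) else none

/-- the adversary -/
noncomputable def adv (S : Set ℕ) (x : ℕ) : Adversary := fun _ y => av S x y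

theorem adv_correct (S : Set ℕ) (x : ℕ) : (adv S x).Correct (Ch S) id x := by
  classical
  intro a y
  unfold adv av
  by_cases h : Ch S x y
  · rw [if_neg (by simpa using h)]
    by_cases h2 : ∃ z, Ch S x z ∧ y < z
    · rw [dif_pos h2]
      obtain ⟨h3, h4⟩ := Nat.find_spec h2
      exact ⟨h3.1, fun hB => hB.2 h4 h3⟩
    · rw [dif_neg h2]
      intro z _
      exact ⟨h, fun hlt hC => h2 ⟨z, hC, hlt⟩⟩
  · rw [if_pos h]
    exact ⟨Nat.zero_le _, fun hB => h hB.1⟩

theorem av_infeas {S : Set ℕ} {x y : ℕ} (h : ¬ Ch S x y) : av S x y = some 0 := by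
  unfold av
  rw [if_pos h]

theorem av_next {S : Set ℕ} {x y z : ℕ} (h : Ch S x y) (hz : Ch S x z) (hyz : y < z)
    (hmin : ∀ z', Ch S x z' → y < z' → z ≤ z') : av S x y = some z := by
  classical
  unfold av
  have h2 : ∃ z, Ch S x z ∧ y < z := ⟨z, hz, hyz⟩
  rw [if_neg (by simpa using h), dif_pos h2]
  congr 1
  rw [Nat.find_eq_iff]
  refine ⟨⟨hz, hyz⟩, fun k hk h3 => ?_⟩
  have := hmin k h3.1 h3.2
  omega

section game

variable {M : CAlg} {N : Alg} {x lo : ℕ} {S0 : Set ℕ} {O : Set ℕ → Oracle} {c K La LQ : ℕ}

/-- a new member -/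
theorem exists_new {F : Finset ℕ} {m : ℕ} (hF : F.card ≤ K) :
    ∃ g, m < g ∧ g ≤ m + (K + 1) ∧ g ∉ F := by
  by_contra hcon
  push Not at hcon
  have h1 : Finset.Ioc m (m + (K + 1)) ⊆ F := by
    intro g hg
    rw [Finset.mem_Ioc] at hg
    exact hcon g hg.1 hg.2
  have h2 := Finset.card_le_card h1
  rw [Nat.card_Ioc] at h2
  omega

theorem greatest_insert {S : Set ℕ} {m g : ℕ} (hm : IsGreatest {y | Ch S x y} m) (hg : m < g)
    (hgx : g ≤ x) : IsGreatest {y | Ch (insert g S) x y} g := by
  refine ⟨⟨hgx, Or.inr (Set.mem_insert _ _)⟩, ?_⟩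
  rintro y ⟨hy, h | h⟩
  · omega
  · rcases h with h | h
    · exact h.le
    · have := hm.2 (show Ch S x y from ⟨hy, Or.inr h⟩)
      omega

/-- every output is wrong, perhaps after the addition of a member -/
theorem fail_out {S : Set ℕ} {F : Finset ℕ} {m : ℕ} (hm : IsGreatest {y | Ch S x y} m)
    (hF : F.card ≤ K) (hx : m + (K + 1) ≤ x) (y : ℕ) :
    ∃ S' : Set ℕ, S ⊆ S' ∧ (∀ s ∈ S', s ∉ S → m < s ∧ s ≤ x ∧ s ∉ F) ∧ ¬ Opt (Ch S') id x y := by
  by_cases hy : y = m
  · obtain ⟨g, h1, h2, h3⟩ := exists_new (m := m) hF
    refine ⟨insert g S, Set.subset_insert _ _, ?_, fun h => ?_⟩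
    · intro s hs hsS
      have : s = g := by
        rcases hs with h | h
        · exact h
        · exact absurd h hsS
      subst this
      exact ⟨h1, by omega, h3⟩
    · have h4 := h g (by omega)
      exact h4.2 (by rw [hy]; exact h1) ⟨by omega, Or.inr (Set.mem_insert _ _)⟩
  · refine ⟨S, subset_rfl, fun s hs hsS => absurd hs hsS, fun h => ?_⟩
    have h4 := h m hm.1.1
    have h5 : y ≤ m := hm.2 h4.1
    exact h4.2 (lt_of_le_of_ne h5 hy) hm.1

theorem game
    (hO : ∀ S S' : Set ℕ, S0 ⊆ S → S ⊆ S' → (∀ s ∈ S', s ∉ S0 → lo ≤ s ∧ s ≤ x) →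
      ∀ q : List Bool, (∀ v, q = true :: v → num v ∈ S' → num v ∈ S) → O S' q = O S q)
    (hN : ∀ a q : List Bool, a.length ≤ La → M.D (pairBits x.bits a) = false :: q →
      ∀ A : Oracle, ∃ Q : Finset (List Bool), Q.card ≤ c ∧ (∀ r ∈ Q, r.length ≤ LQ) ∧
        ∀ A' : Oracle, (∀ r ∈ Q, A' r = A r) → N.out A' q = N.out A q) :
    ∀ (n : ℕ) (a : List Bool) (S : Set ℕ) (F : Finset ℕ) (m : ℕ),
      a.length + n * (2 * (x.bits.length + 1) + 1) ≤ La → S0 ⊆ S →
      (∀ s ∈ S, s ∉ S0 → lo ≤ s ∧ s ≤ x) → IsGreatest {y | Ch S x y} m → lo ≤ m →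
      F.card + n * (c + 1) ≤ K → m + (n + 1) * (K + 1) ≤ x →
      ∃ (S' : Set ℕ) (Q : Finset (List Bool)), S ⊆ S' ∧
        (∀ s ∈ S', s ∉ S → m < s ∧ s ≤ x ∧ s ∉ F) ∧ Q.card ≤ n * c ∧
        (∀ r ∈ Q, r.length ≤ LQ) ∧
        ∀ A : Oracle, (∀ r ∈ Q, A r = O S' r) →
          ¬ ∃ y, M.run {q | N.out A q = some [true]} (adv S' x) x n a = some y ∧
            Opt (Ch S') id x y := by
  classical
  intro n
  induction n with
  | zero =>
    intro a S F m _ _ _ _ _ _ _
    refine ⟨S, ∅, subset_rfl, fun s hs hsS => absurd hs hsS, by simp, by simp, ?_⟩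
    rintro A - ⟨y, hy, -⟩
    simp [CAlg.run] at hy
  | succ n ih =>
    intro a S F m hLa hS0 hSlo hm hlo hF hx
    have hFK : F.card ≤ K := by omega
    have hKK : (n + 1) * (K + 1) = n * (K + 1) + (K + 1) := by ring
    have hKK2 : (n + 1 + 1) * (K + 1) = n * (K + 1) + 2 * (K + 1) := by ring
    have hLL : (n + 1) * (2 * (x.bits.length + 1) + 1) =
      n * (2 * (x.bits.length + 1) + 1) + (2 * (x.bits.length + 1) + 1) := by ring
    have hcc : (n + 1) * (c + 1) = n * (c + 1) + (c + 1) := by ring
    have hnc : (n + 1) * c = n * c + c := by ring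
    -- the stopping cases
    have hstop : ∀ y : ℕ, (∀ (T : Set (List Bool)) (ad : Adversary),
        M.run T ad x (n + 1) a = some y) →
        ∃ (S' : Set ℕ) (Q : Finset (List Bool)), S ⊆ S' ∧
          (∀ s ∈ S', s ∉ S → m < s ∧ s ≤ x ∧ s ∉ F) ∧ Q.card ≤ (n + 1) * c ∧
          (∀ r ∈ Q, r.length ≤ LQ) ∧
          ∀ A : Oracle, (∀ r ∈ Q, A r = O S' r) →
            ¬ ∃ y, M.run {q | N.out A q = some [true]} (adv S' x) x (n + 1) a = some y ∧
              Opt (Ch S') id x y := by
      intro y hy
      obtain ⟨S', h1, h2, h3⟩ := fail_out (x := x) hm hFK (by omega) y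
      refine ⟨S', ∅, h1, h2, by simp, by simp, ?_⟩
      rintro A - ⟨y', hy', ho⟩
      rw [hy, Option.some.injEq] at hy'
      subst hy'
      exact h3 ho
    -- the cases of a presented number
    have hpres : ∀ (w : List Bool) (S1 : Set ℕ) (F1 : Finset ℕ) (m1 : ℕ) (o : ℕ),
        M.D (pairBits x.bits a) = true :: false :: w → o ≤ x →
        S ⊆ S1 → (∀ s ∈ S1, s ∉ S → m < s ∧ s ≤ x ∧ s ∉ F) → F ⊆ F1 → F1.card ≤ F.card + 1 →
        IsGreatest {y | Ch S1 x y} m1 → m ≤ m1 → m1 ≤ m + (K + 1) →
        (∀ S' : Set ℕ, S1 ⊆ S' → (∀ s ∈ S', s ∉ S1 → m1 < s ∧ s ≤ x ∧ s ∉ F1) →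
          av S' x (num w) = some o) →
        ∃ (S' : Set ℕ) (Q : Finset (List Bool)), S ⊆ S' ∧
          (∀ s ∈ S', s ∉ S → m < s ∧ s ≤ x ∧ s ∉ F) ∧ Q.card ≤ (n + 1) * c ∧
          (∀ r ∈ Q, r.length ≤ LQ) ∧
          ∀ A : Oracle, (∀ r ∈ Q, A r = O S' r) →
            ¬ ∃ y, M.run {q | N.out A q = some [true]} (adv S' x) x (n + 1) a = some y ∧
              Opt (Ch S') id x y := by
      intro w S1 F1 m1 o hD hox hSS1 hS1 hFF1 hF1 hm1 hmm1 hm1m hav
      have hlen : (pairBits (ansCode (some o)) a).length ≤
          a.length + (2 * (x.bits.length + 1) + 1) := by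
        rw [length_pairBits]
        have := length_bits_mono hox
        simp only [ansCode, List.length_cons]
        omega
      obtain ⟨S', Q, g1, g2, g3, g4, g5⟩ := ih (pairBits (ansCode (some o)) a) S1 F1 m1
        (by omega) (hS0.trans hSS1) (by
          intro s hs hs0
          by_cases hsS : s ∈ S
          · exact hSlo s hsS hs0
          · have := hS1 s hs hsS
            omega) hm1 (by omega) (by omega) (by omega)
      refine ⟨S', Q, hSS1.trans g1, ?_, by omega, g4, ?_⟩
      · intro s hs hsS
        by_cases hs1 : s ∈ S1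
        · exact hS1 s hs1 hsS
        · have := g2 s hs hs1
          exact ⟨by omega, this.2.1, fun h => this.2.2 (hFF1 h)⟩
      · rintro A hA ⟨y, hy, ho⟩
        rw [(run_present M _ (adv S' x) x n hD).1] at hy
        have h5 : adv S' x a (num w) = some o := hav S' g1 g2
        rw [h5] at hy
        exact g5 A hA ⟨y, hy, ho⟩
    rcases hD : M.D (pairBits x.bits a) with _ | ⟨b, q⟩
    · exact hstop 0 (fun T ad => by rw [CAlg.run, hD])
    · cases b with
      | false =>
        -- a question to the oracle set
        obtain ⟨Q0, k1, k2, k3⟩ := hN a q (by omega) hD (O S)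
        have hlen : (pairBits [decide (N.out (O S) q = some [true])] a).length ≤
            a.length + (2 * (x.bits.length + 1) + 1) := by
          rw [length_pairBits]
          simp only [List.length_singleton]
          omega
        have hcard : (F ∪ Q0.image (fun r => num r.tail)).card ≤ F.card + c :=
          (Finset.card_union_le _ _).trans (Nat.add_le_add_left (Finset.card_image_le.trans k1) _)
        obtain ⟨S', Q, g1, g2, g3, g4, g5⟩ := ih (pairBits [decide (N.out (O S) q = some [true])] a)
          S (F ∪ Q0.image (fun r => num r.tail)) m (by omega) hS0 hSlo hm hlo (by omega) (by omega)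
        refine ⟨S', Q ∪ Q0, g1, ?_, ?_, ?_, ?_⟩
        · intro s hs hsS
          have := g2 s hs hsS
          exact ⟨this.1, this.2.1, fun h => this.2.2 (Finset.mem_union_left _ h)⟩
        · have := Finset.card_union_le Q Q0
          omega
        · intro r hr
          rcases Finset.mem_union.1 hr with hr | hr
          · exact g4 r hr
          · exact k2 r hr
        · rintro A hA ⟨y, hy, ho⟩
          have h6 : ∀ r ∈ Q0, O S' r = O S r := by
            intro r hr
            refine hO S S' hS0 g1 ?_ r ?_
            · intro s hs hs0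
              by_cases hsS : s ∈ S
              · exact hSlo s hsS hs0
              · have := g2 s hs hsS
                omega
            · intro v hv hvS
              by_contra hvn
              apply (g2 _ hvS hvn).2.2
              apply Finset.mem_union_right
              exact Finset.mem_image.2 ⟨r, hr, by rw [hv]; rfl⟩
          have h7 : N.out A q = N.out (O S) q :=
            k3 A fun r hr => by rw [hA r (Finset.mem_union_right _ hr), h6 r hr]
          rw [(run_false M _ (adv S' x) x n hD).1] at hy
          have h8 : @decide (q ∈ {q | N.out A q = some [true]}) (Classical.propDecidable _) =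
              decide (N.out (O S) q = some [true]) := by
            rw [decide_eq_decide]
            show N.out A q = some [true] ↔ _
            rw [h7]
          rw [h8] at hy
          exact g5 A (fun r hr => hA r (Finset.mem_union_left _ hr)) ⟨y, hy, ho⟩
      | true =>
        rcases q with _ | ⟨b, w⟩
        · exact hstop 0 (fun T ad => by rw [CAlg.run, hD])
        · cases b with
          | true => exact hstop (num w) (fun T ad => (run_stop M T ad x n hD).1)
          | false =>
            -- a presented number
            by_cases hC : Ch S x (num w)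
            · have hle : num w ≤ m := hm.2 hC
              rcases hle.lt_or_eq with hlt | heq
              · -- not the largest
                have hex : ∃ z, Ch S x z ∧ num w < z := ⟨m, hm.1, hlt⟩
                obtain ⟨h3, h4⟩ := Nat.find_spec hex
                refine hpres w S F m (Nat.find hex) hD h3.1 subset_rfl
                  (fun s hs hsS => absurd hs hsS) subset_rfl (by omega) hm le_rfl (by omega) ?_
                intro S' h5 h6
                have h7 : Nat.find hex ≤ m := Nat.find_min' hex ⟨hm.1, hlt⟩
                refine av_next ⟨hC.1, hC.2.imp_right fun h => h5 h⟩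
                  ⟨h3.1, h3.2.imp_right fun h => h5 h⟩ h4 ?_
                rintro z' ⟨hz1, hz2⟩ hz3
                by_contra hlt'
                push Not at hlt'
                have h8 : Ch S x z' := by
                  refine ⟨hz1, hz2.imp_right fun h => ?_⟩
                  by_contra hn
                  have := (h6 z' h hn).1
                  omega
                exact Nat.find_min hex hlt' ⟨h8, hz3⟩
              · -- the largest
                obtain ⟨g, h1, h2, h3⟩ := exists_new (m := m) hFK
                have hgx : g ≤ x := by omega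
                refine hpres w (insert g S) F g g hD hgx (Set.subset_insert _ _) ?_ subset_rfl
                  (by omega) (greatest_insert hm h1 hgx) h1.le h2 ?_
                · intro s hs hsS
                  have : s = g := by
                    rcases hs with h | h
                    · exact h
                    · exact absurd h hsS
                  subst this
                  exact ⟨h1, hgx, h3⟩
                · intro S' h5 h6
                  refine av_next ⟨hC.1, hC.2.imp_right fun h => h5 (Set.mem_insert_of_mem _ h)⟩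
                    ⟨hgx, Or.inr (h5 (Set.mem_insert _ _))⟩ (by omega) ?_
                  rintro z' ⟨hz1, hz2⟩ hz3
                  by_contra hlt'
                  push Not at hlt'
                  rcases hz2 with h | h
                  · omega
                  · by_cases hn : z' ∈ insert g S
                    · rcases hn with h' | h'
                      · omega
                      · have := hm.2 (show Ch S x z' from ⟨hz1, Or.inr h'⟩)
                        omega
                    · have := (h6 z' h hn).1
                      omega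
            · -- not feasible
              refine hpres w S (insert (num w) F) m 0 hD (Nat.zero_le _) subset_rfl
                (fun s hs hsS => absurd hs hsS) (Finset.subset_insert _ _)
                (Finset.card_insert_le _ _) hm le_rfl (by omega) ?_
              intro S' h5 h6
              apply av_infeas
              rintro ⟨hz1, hz2⟩
              apply hC
              refine ⟨hz1, hz2.imp_right fun h => ?_⟩
              by_contra hn
              exact (h6 _ h hn).2.2 (Finset.mem_insert_self _ _)

end game

end Pool.Agent.V8H83.CXD
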