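import Pool.Agent.V8H83.CXD.Game

/-!
# One stage of the diagonalisation against counterexample computations
-/

set_option autoImplicit false

namespace Pool.Agent.V8H83.CXD

open Pool.Agent.NPC Pool.Agent.H620R2.Gauge Pool.Agent.V8H57.CX Pool.Agent.V8H57.RX

/-- the next action of a counterexample computation has polynomially bounded length -/
theorem next_bound (M : CAlg) (p : Polynomial ℕ) : ∃ b : Polynomial ℕ, ∀ x a : List Bool,
    a.length ≤ p.eval x.length → (M.D (pairBits x a)).length ≤ b.eval x.length :=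
  CC.act_length ⟨M.D, M.poly, M.D, M.poly⟩ p

theorem bits_len (l : ℕ) (hl : 1 ≤ l) : (2 ^ l - 1).bits.length = l := by
  rw [Nat.size_eq_bits_len]
  have h1 : 2 ^ l = 2 * 2 ^ (l - 1) := by
    obtain ⟨k, rfl⟩ : ∃ k, l = k + 1 := ⟨l - 1, by omega⟩
    rw [Nat.add_sub_cancel, pow_succ]; ring
  have h2 : 0 < 2 ^ (l - 1) := by positivity
  apply le_antisymm
  · exact Nat.size_le.2 (by omega)
  · have h3 : l - 1 < (2 ^ l - 1).size := Nat.lt_size.2 (by omega)
    omega

/-- For a counterexample computation `M` and an algorithm `N` for its oracle set there is a polynomial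
`P` such that for all `l` with `P l < 2 ^ (l - 1)`: if the members of `S0` have less than `l` digits,
and if `O` is a family of oracles such that adding numbers with `l` digits to `S` changes `O S` only
at the strings for these numbers, then there are a set `S'`, which is `S0` with some numbers with `l`
digits, and a set `Q` of at most `P l` strings of length at most `P l`, such that for all oracles `A`
which agree with `O S'` on `Q`, the computation fails on the instance `2 ^ l - 1`. -/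
theorem stage (M : CAlg) (N : Alg) : ∃ P : Polynomial ℕ, ∀ l : ℕ, 1 ≤ l →
    P.eval l < 2 ^ (l - 1) → ∀ (S0 : Set ℕ) (O : Set ℕ → Oracle), (∀ s ∈ S0, s < 2 ^ (l - 1)) →
    (∀ S S' : Set ℕ, S0 ⊆ S → S ⊆ S' →
      (∀ s ∈ S', s ∉ S0 → 2 ^ (l - 1) ≤ s ∧ s ≤ 2 ^ l - 1) →
      ∀ q : List Bool, (∀ v, q = true :: v → num v ∈ S' → num v ∈ S) → O S' q = O S q) →
    ∃ (S' : Set ℕ) (Q : Finset (List Bool)), S0 ⊆ S' ∧
      (∀ s ∈ S', s ∉ S0 → 2 ^ (l - 1) ≤ s ∧ s ≤ 2 ^ l - 1) ∧ Q.card ≤ P.eval l ∧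
      (∀ r ∈ Q, r.length ≤ P.eval l) ∧
      ∀ A : Oracle, (∀ r ∈ Q, A r = O S' r) →
        ¬ ∃ y, M.run {q | N.out A q = some [true]} (adv S' (2 ^ l - 1)) (2 ^ l - 1)
          (M.p.eval (2 ^ l - 1).bits.length) [] = some y ∧ Opt (Ch S') id (2 ^ l - 1) y := by
  obtain ⟨b, hb⟩ := next_bound M (M.p * (Polynomial.C 2 * Polynomial.X + Polynomial.C 3))
  obtain ⟨qb, hqb⟩ := N.out_local
  refine ⟨(M.p + 1) * (M.p * (N.p.comp b + 1) + 1) + M.p * N.p.comp b + qb.comp b, ?_⟩
  intro l hl hP S0 O hS0 hO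
  obtain ⟨x, hx⟩ : ∃ x, x = 2 ^ l - 1 := ⟨_, rfl⟩
  obtain ⟨lo, hlo⟩ : ∃ lo, lo = 2 ^ (l - 1) := ⟨_, rfl⟩
  have hxl : x.bits.length = l := by rw [hx]; exact bits_len l hl
  simp only [← hx, ← hlo] at hP hS0 hO ⊢
  rw [hxl]
  have h2 : x + 1 = 2 * lo := by
    obtain ⟨k, rfl⟩ : ∃ k, l = k + 1 := ⟨l - 1, by omega⟩
    have h3 : 0 < 2 ^ (k + 1) := by positivity
    rw [Nat.add_sub_cancel] at hlo
    rw [pow_succ] at hx h3
    omega
  have hlo0 : 0 < lo := by rw [hlo]; positivity
  simp only [Polynomial.eval_add, Polynomial.eval_mul, Polynomial.eval_one,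
    Polynomial.eval_comp] at hP ⊢
  obtain ⟨R, hR⟩ : ∃ R, R = M.p.eval l := ⟨_, rfl⟩
  obtain ⟨c, hc⟩ : ∃ c, c = N.p.eval (b.eval l) := ⟨_, rfl⟩
  obtain ⟨LQ, hLQ⟩ : ∃ LQ, LQ = qb.eval (b.eval l) := ⟨_, rfl⟩
  rw [← hR, ← hc, ← hLQ] at hP ⊢
  have hN : ∀ a q : List Bool, a.length ≤ R * (2 * (x.bits.length + 1) + 1) →
      M.D (pairBits x.bits a) = false :: q →
      ∀ A : Oracle, ∃ Q : Finset (List Bool), Q.card ≤ c ∧ (∀ r ∈ Q, r.length ≤ LQ) ∧
        ∀ A' : Oracle, (∀ r ∈ Q, A' r = A r) → N.out A' q = N.out A q := by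
    intro a q ha hD A
    have h3 := hb x.bits a (by
      simp only [Polynomial.eval_add, Polynomial.eval_mul, Polynomial.eval_C, Polynomial.eval_X]
      rw [hxl] at ha ⊢
      rw [← hR]
      calc a.length ≤ _ := ha
        _ = _ := by ring)
    rw [hD, List.length_cons, hxl] at h3
    have h4 : q.length ≤ b.eval l := by omega
    obtain ⟨Q, i1, i2, i3⟩ := hqb A q
    refine ⟨Q, ?_, ?_, i3⟩
    · rw [hc]
      exact i1.trans (eval_mono _ h4)
    · intro r hr
      rw [hLQ]
      exact (i2 r hr).trans (eval_mono _ h4)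
  have hgr : IsGreatest {y | Ch (insert lo S0) x y} lo := by
    refine ⟨⟨by omega, Or.inr (Set.mem_insert _ _)⟩, ?_⟩
    rintro y ⟨-, h | h⟩
    · omega
    · rcases h with h | h
      · exact h.le
      · exact (hS0 y h).le
  have hK : (R + 1) * (R * (c + 1) + 1) < lo := by omega
  obtain ⟨S', Q, g1, g2, g3, g4, g5⟩ := game (M := M) (N := N) (x := x) (lo := lo) (S0 := S0)
    (O := O) (c := c) (K := R * (c + 1)) (La := R * (2 * (x.bits.length + 1) + 1)) (LQ := LQ)
    hO hN R [] (insert lo S0) ∅ lo (by simp) (Set.subset_insert _ _) (by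
      intro s hs hs0
      rcases hs with h | h
      · omega
      · exact absurd h hs0) hgr le_rfl (by simp) (by omega)
  refine ⟨S', Q, (Set.subset_insert _ _).trans g1, ?_, ?_, ?_, g5⟩
  · intro s hs hs0
    by_cases h : s ∈ insert lo S0
    · rcases h with h | h
      · omega
      · exact absurd h hs0
    · have := g2 s hs h
      omega
  · calc Q.card ≤ R * c := g3
      _ ≤ _ := by omega
  · intro r hr
    have := g4 r hr
    omega

end Pool.Agent.V8H83.CXD
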